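import Pool.Agent.Y522.Stm6

/-! Project SH3: the finite induction `StMGlob`. -/

set_option autoImplicit false

open Set Filter Topology Metric Function MeasureTheory
open scoped Manifold ContDiff

noncomputable section

namespace Pool.Agent.Y73.SH

open Pool.Agent.Y522

theorem MBox.mono' {n : ℕ} {X : Type} {F : X → E n} {A : E n → X} {ρ ρ' κ κ' : ℝ}
    (h : MBox n F A ρ κ) (h1 : ρ' ≤ ρ) (h2 : κ' ≤ κ) : MBox n F A ρ' κ' := by
  intro u hu
  obtain ⟨ℓ, hℓ⟩ := h u hu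
  exact ⟨ℓ, fun p q hp hq t ht hpq => hℓ p q (hp.trans h1) (hq.trans h1) t ht
    (hpq.trans (mul_le_mul_of_nonneg_right h2 ht.le))⟩

theorem exists_lower {N : ℕ} (f : Fin N → ℝ) (hf : ∀ j, 0 < f j) : ∃ κ : ℝ, 0 < κ ∧ ∀ j, κ ≤ f j := by
  have h0 : 0 ≤ ∑ j, (f j)⁻¹ := Finset.sum_nonneg fun j _ => (inv_pos.2 (hf j)).le
  refine ⟨(∑ j, (f j)⁻¹ + 1)⁻¹, inv_pos.2 (by linarith), fun j => ?_⟩
  rw [inv_le_comm₀ (by linarith) (hf j)]
  have h1 : (f j)⁻¹ ≤ ∑ j, (f j)⁻¹ :=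
    Finset.single_le_sum (f := fun j => (f j)⁻¹) (fun j _ => (inv_pos.2 (hf j)).le)
      (Finset.mem_univ j)
  linarith

theorem mglob (hS : StMStep) (hC : StMChart) (hV : StCover) : StMGlob := by
  intro n X _ _ _ _ F hF hr hD hK
  have h1 : ∀ x, ¬ LD n F x → ∃ (B : E n → X) (κ : ℝ), 0 < κ ∧ B 0 = x ∧
      InjOn B (closedBall 0 2) ∧ (∀ z ∈ closedBall 0 2, LD n B z) ∧ MBox n F B 2 κ :=
    fun x hx => hC n X F x (hD x hx)
  choose! B κ hκ hB0 hBi hBd hBm using h1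
  have hU : ∀ x (hx : x ∈ {x | ¬ LD n F x}), B x '' ball 0 (1 / 2) ∈ 𝓝 x := by
    intro x hx
    have h2 : LD n (B x) 0 := hBd x hx 0 (by simp)
    have h3 := h2.image_mem_nhds (ball_mem_nhds (0 : E n) (by norm_num : (0 : ℝ) < 1 / 2))
    rwa [hB0 x hx] at h3
  obtain ⟨t, ht⟩ := hK.elim_nhds_subcover' (fun x _ => B x '' ball 0 (1 / 2)) hU
  set N := t.card with hN
  set A : Fin N → E n → X := fun j => B ((t.equivFin.symm j).1 : X) with hA
  have hAK : ∀ j : Fin N, ¬ LD n F ((t.equivFin.symm j).1 : X) := fun j =>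
    (t.equivFin.symm j).1.2
  obtain ⟨κ₀, hκ0, hκ1⟩ := exists_lower (fun j : Fin N => κ ((t.equivFin.symm j).1 : X))
    (fun j => hκ _ (hAK j))
  have hAi : ∀ j, InjOn (A j) (closedBall 0 2) := fun j => hBi _ (hAK j)
  have hAd : ∀ j, ∀ z ∈ closedBall (0 : E n) 2, LD n (A j) z := fun j => hBd _ (hAK j)
  have hcov : ∀ x, ¬ LD n F x → ∃ j z, ‖z‖ ≤ 1 / 2 ∧ A j z = x := by
    intro x hx
    have h2 := ht hx
    rw [mem_iUnion₂] at h2
    obtain ⟨y, hy, z, hz, hzx⟩ := h2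
    refine ⟨t.equivFin ⟨y, hy⟩, z, ?_, ?_⟩
    · rw [mem_ball_zero_iff] at hz
      exact hz.le
    · simp only [hA, Equiv.symm_apply_apply]
      exact hzx
  have hF1 : ∀ p, ‖F p‖ < 1 := by
    intro p
    have : F p ∈ ball (0 : E n) 1 := hr ▸ mem_range_self p
    simpa using this
  -- the induction
  have key : ∀ i : ℕ, i ≤ N → ∃ F' : X → E n, Continuous F' ∧ (∀ p, ‖F' p‖ < 1) ∧
      (∀ p, (∀ j, p ∉ A j '' closedBall 0 1) → F' p = F p) ∧ (∀ p, LD n F p → LD n F' p) ∧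
      (∀ j : Fin N, (j : ℕ) < i → ∀ z, ‖z‖ ≤ 1 / 2 → LD n F' (A j z)) ∧
      ∀ j, MBox n F' (A j) (2 - i / (2 * N)) (κ₀ * (1 - i / (2 * N))) := by
    intro i
    induction i with
    | zero =>
      intro _
      refine ⟨F, hF.continuous, hF1, fun _ _ => rfl, fun _ h => h, fun j hj => absurd hj (by omega),
        fun j => ?_⟩
      refine MBox.mono' (hBm _ (hAK j)) (by simp) ?_
      have := hκ1 j
      simpa using this
    | succ i ih =>
      intro hi
      obtain ⟨F', h2, h3, h4, h5, h6, h7⟩ := ih (by omega)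
      have hN0 : (0 : ℝ) < N := by exact_mod_cast (by omega : 0 < N)
      have hiN : ((i : ℝ) + 1) ≤ N := by exact_mod_cast hi
      have hi0 : (0 : ℝ) ≤ i := by positivity
      have e1 : ((i : ℝ) + 1) / (2 * N) ≤ 1 / 2 := by
        rw [div_le_iff₀ (by positivity)]
        linarith
      have e2 : (i : ℝ) / (2 * N) < ((i : ℝ) + 1) / (2 * N) := by
        apply div_lt_div_of_pos_right _ (by positivity)
        linarith
      have e3 : 0 ≤ (i : ℝ) / (2 * N) := by positivity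
      obtain ⟨F'', g1, g2, g3, g4, g5, g6⟩ := hS n X F' N A ⟨i, by omega⟩ (2 - i / (2 * N))
        (2 - ((i : ℝ) + 1) / (2 * N)) (κ₀ * (1 - i / (2 * N)))
        (κ₀ * (1 - ((i : ℝ) + 1) / (2 * N))) h2 hAi hAd (by linarith) (by linarith) (by linarith)
        (mul_pos hκ0 (by linarith)) (mul_lt_mul_of_pos_left (by linarith) hκ0) h7
      refine ⟨F'', g1, g3 h3, ?_, fun p hp => g4 p (h5 p hp), ?_, ?_⟩
      · intro p hp
        rw [g2 p (hp _), h4 p hp]
      · intro j hj z hz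
        rcases Nat.lt_succ_iff_lt_or_eq.1 hj with h8 | h8
        · exact g4 _ (h6 j h8 z hz)
        · have h9 : j = ⟨i, by omega⟩ := Fin.ext h8
          rw [h9]
          exact g5 z hz
      · push_cast
        exact g6
  obtain ⟨F', h2, h3, h4, h5, h6, -⟩ := key N le_rfl
  set C : Set X := ⋃ j, A j '' closedBall 0 1 with hCdef
  have hCc : IsCompact C := by
    apply isCompact_iUnion
    intro j
    apply (isCompact_closedBall _ _).image_of_continuousOn
    intro z hz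
    exact (hAd j z (closedBall_subset_closedBall (by norm_num) hz)).continuousAt.continuousWithinAt
  have h7 : ∀ p, p ∉ C → F' p = F p := by
    intro p hp
    apply h4
    intro j hj
    exact hp (mem_iUnion.2 ⟨j, hj⟩)
  have h8 : ∀ x, LD n F' x := by
    intro x
    by_cases hx : LD n F x
    · exact h5 x hx
    · obtain ⟨j, z, hz, rfl⟩ := hcov x hx
      exact h6 j j.2 z hz
  obtain ⟨h9, h10⟩ := hV n X F F' C hF hr hCc h7 h3 h8
  exact ⟨F', C, hCc, h2, h9, h10.trans hr.symm, h7, h8⟩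

end Pool.Agent.Y73.SH
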